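import Pool.Agent.helper57.LQ.SpecA

/-!
# Row ALG of project lq
-/

set_option autoImplicit false

open Finset PowerSeries

noncomputable section

namespace Pool.Agent.LQ

theorem ALG_T_one : T 1 = 1 := by
  refine LinearMap.ext fun f => ?_
  ext m
  rw [coeff_T]
  simp

theorem ALG_split (hHRC : HRC_stmt) (p k' : ℕ) (hp : p.Prime) (hk : 0 < k') :
    T (p * k') = T p * T k' - if p ∣ k' then T (k' / p) else 0 := by
  rw [hHRC p k' hp hk, add_sub_cancel_right]

theorem ALG_ind {C : ℕ → Prop} (h1 : C 1)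
    (hs : ∀ p k' : ℕ, p.Prime → 0 < k' → (∀ j, 0 < j → j < p * k' → j ∣ p * k' → C j) → C (p * k')) :
    ∀ k : ℕ, 0 < k → C k := by
  intro k
  induction k using Nat.strong_induction_on with
  | _ k ih =>
    intro hk
    by_cases h : k = 1
    · rw [h]; exact h1
    · obtain ⟨k', hk'⟩ := Nat.minFac_dvd k
      have hp := Nat.minFac_prime h
      have hk'0 : 0 < k' := by
        rcases Nat.eq_zero_or_pos k' with h0 | h0
        · rw [h0, mul_zero] at hk'; omega
        · exact h0
      rw [hk']
      refine hs _ _ hp hk'0 fun j hj hlt _ => ?_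
      rw [← hk'] at hlt
      exact ih j hlt hj

theorem ALG_lt (p k' : ℕ) (hp : p.Prime) (hk : 0 < k') : k' < p * k' := by
  have := hp.two_le
  nlinarith

theorem ALG_comm_of_prime (hHRC : HRC_stmt) (A : Module.End (ZMod 2) FF)
    (h : ∀ p : ℕ, p.Prime → Commute A (T p)) : ∀ k : ℕ, 0 < k → Commute A (T k) := by
  apply ALG_ind
  · rw [ALG_T_one]
    exact Commute.one_right A
  · intro p k' hp hk ih
    rw [ALG_split hHRC p k' hp hk]
    refine Commute.sub_right ((h p hp).mul_right (ih k' hk (ALG_lt p k' hp hk) ⟨p, by ring⟩)) ?_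
    split_ifs with hd
    · obtain ⟨c, rfl⟩ := hd
      rw [Nat.mul_div_cancel_left _ hp.pos]
      have hc : 0 < c := Nat.pos_of_mul_pos_left hk
      refine ih c hc ?_ ⟨p * p, by ring⟩
      exact (ALG_lt p c hp hc).trans (ALG_lt p _ hp hk)
    · exact Commute.zero_right A

theorem ALG_comm_primes (hHRC : HRC_stmt) (l p : ℕ) (hl : l.Prime) (hp : p.Prime) :
    Commute (T l) (T p) := by
  by_cases h : l = p
  · rw [h]
  · have h1 : ¬ l ∣ p := fun hd => h ((Nat.prime_dvd_prime_iff_eq hl hp).mp hd)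
    have h2 : ¬ p ∣ l := fun hd => h ((Nat.prime_dvd_prime_iff_eq hp hl).mp hd).symm
    show T l * T p = T p * T l
    rw [hHRC l p hl hp.pos, hHRC p l hp hl.pos, if_neg h1, if_neg h2, mul_comm l p]

theorem ALG_comm (hHRC : HRC_stmt) (n k : ℕ) (hn : 0 < n) (hk : 0 < k) : Commute (T n) (T k) := by
  refine ALG_comm_of_prime hHRC (T n) (fun p hp => ?_) k hk
  refine (ALG_comm_of_prime hHRC (T p) (fun q hq => ALG_comm_primes hHRC p q hp hq) n hn).symm

theorem ALG_mem (N n : ℕ) (h : n.Coprime N) : T n ∈ TT N := Submodule.subset_span ⟨n, h, rfl⟩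

theorem ALG_pos {N n : ℕ} (hN : 1 < N) (h : n.Coprime N) : 0 < n := by
  rcases Nat.eq_zero_or_pos n with h0 | h0
  · rw [h0, Nat.coprime_zero_left] at h
    omega
  · exact h0

theorem ALG_prime_mul (hHRC : HRC_stmt) (N : ℕ) (hN : 1 < N) (l : ℕ) (hl : l.Prime)
    (hlN : l.Coprime N) (A : Module.End (ZMod 2) FF) (hA : A ∈ TT N) : T l * A ∈ TT N := by
  induction hA using Submodule.span_induction with
  | mem x hx =>
    obtain ⟨k, hk, rfl⟩ := hx
    rw [hHRC l k hl (ALG_pos hN hk)]
    refine Submodule.add_mem _ (ALG_mem N _ (Nat.Coprime.mul_left hlN hk)) ?_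
    split_ifs with hd
    · exact ALG_mem N _ (Nat.Coprime.coprime_dvd_left (Nat.div_dvd_of_dvd hd) hk)
    · exact Submodule.zero_mem _
  | zero => rw [mul_zero]; exact Submodule.zero_mem _
  | add x y _ _ hx hy => rw [mul_add]; exact Submodule.add_mem _ hx hy
  | smul c x _ hx => rw [mul_smul_comm]; exact Submodule.smul_mem _ c hx

theorem ALG_T_mul (hHRC : HRC_stmt) (N : ℕ) (hN : 1 < N) : ∀ n : ℕ, 0 < n → n.Coprime N →
    ∀ A ∈ TT N, T n * A ∈ TT N := by
  apply ALG_ind
  · intro _ A hA
    rw [ALG_T_one, one_mul]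
    exact hA
  · intro p k' hp hk ih hc A hA
    have hpN : p.Coprime N := Nat.Coprime.coprime_dvd_left (Dvd.intro _ rfl) hc
    have hkN : k'.Coprime N := Nat.Coprime.coprime_dvd_left (Dvd.intro_left _ rfl) hc
    rw [ALG_split hHRC p k' hp hk, sub_mul, mul_assoc]
    refine Submodule.sub_mem _ (ALG_prime_mul hHRC N hN p hp hpN _
      (ih k' hk (ALG_lt p k' hp hk) ⟨p, by ring⟩ hkN A hA)) ?_
    split_ifs with hd
    · obtain ⟨c, rfl⟩ := hd
      rw [Nat.mul_div_cancel_left _ hp.pos]
      have hc0 : 0 < c := Nat.pos_of_mul_pos_left hk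
      exact ih c hc0 ((ALG_lt p c hp hc0).trans (ALG_lt p _ hp hk)) ⟨p * p, by ring⟩
        (Nat.Coprime.coprime_dvd_left (Dvd.intro_left _ rfl) hkN) A hA
    · rw [zero_mul]; exact Submodule.zero_mem _

theorem ALG (hHRC : HRC_stmt) : ALG_stmt := by
  intro N hN
  refine ⟨?_, fun A hA B hB => ⟨?_, ?_⟩⟩
  · rw [← ALG_T_one]
    exact ALG_mem N 1 (Nat.coprime_one_left N)
  · induction hA using Submodule.span_induction with
    | mem x hx =>
      obtain ⟨n, hn, rfl⟩ := hx
      exact ALG_T_mul hHRC N hN n (ALG_pos hN hn) hn B hB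
    | zero => rw [zero_mul]; exact Submodule.zero_mem _
    | add x y _ _ hx hy => rw [add_mul]; exact Submodule.add_mem _ hx hy
    | smul c x _ hx => rw [smul_mul_assoc]; exact Submodule.smul_mem _ c hx
  · have key : ∀ n : ℕ, n.Coprime N → Commute (T n) B := by
      intro n hn
      induction hB using Submodule.span_induction with
      | mem x hx =>
        obtain ⟨k, hk, rfl⟩ := hx
        exact ALG_comm hHRC n k (ALG_pos hN hn) (ALG_pos hN hk)
      | zero => exact Commute.zero_right _
      | add x y _ _ hx hy => exact hx.add_right hy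
      | smul c x _ hx => exact hx.smul_right c
    have : Commute A B := by
      induction hA using Submodule.span_induction with
      | mem x hx =>
        obtain ⟨n, hn, rfl⟩ := hx
        exact key n hn
      | zero => exact Commute.zero_left _
      | add x y _ _ hx hy => exact hx.add_left hy
      | smul c x _ hx => exact hx.smul_left c
    exact this

end Pool.Agent.LQ
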